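import Pool.Agent.H27.Mono

set_option autoImplicit false

namespace Pool.Agent.Results.MP_5127fd_an.Normal

theorem result (X : Type*) [NormedAddCommGroup X] [NormedSpace ℝ X] [CompleteSpace X]
    [PartialOrder X] [IsOrderedAddMonoid X] [PosSMulMono ℝ X]
    (hclosed : IsClosed (Set.Ici (0 : X)))
    (hS : ∀ x : ℕ → X, Monotone x → BddAbove (Set.range x) → ∃ s, IsLUB (Set.range x) s) :
    ∃ c : ℝ, 0 < c ∧ ∀ x y : X, 0 ≤ x → x ≤ y → ‖x‖ ≤ c * ‖y‖ :=
  Pool.Agent.H27.Mono.normal hclosed hS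

end Pool.Agent.Results.MP_5127fd_an.Normal
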